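import Pool.Agent.Work.MP_7d1d14_co.Final

/-!
Regular cycle-conformal braces: for every `l ≥ 4`, every `l`-regular cycle-conformal brace is
isomorphic to the complete bipartite graph `K_{l,l}`. More generally, every cycle-conformal brace
with minimum degree at least four is complete bipartite.
-/

namespace Pool.Agent.Results.MP_7d1d14_co.RegularBraces

open Pool.Agent.Work.MP_7d1d14_co

universe u

theorem result :
    (∀ (l : ℕ), 4 ≤ l → ∀ (V : Type u) [Fintype V] (G : SimpleGraph V) [G.LocallyFinite],
      IsBrace G → CycleConformal G → G.IsRegularOfDegree l →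
      Nonempty (G ≃g completeBipartiteGraph (Fin l) (Fin l))) ∧
    (∀ (V : Type u) [Fintype V] (G : SimpleGraph V) [G.LocallyFinite],
      IsBrace G → CycleConformal G → (∀ v, 4 ≤ G.degree v) →
      ∃ n : ℕ, Nonempty (G ≃g completeBipartiteGraph (Fin n) (Fin n))) := by
  have hd : ∀ (V : Type u) [Fintype V] (G : SimpleGraph V) [G.LocallyFinite] (v : V),
      (G.neighborSet v).ncard = G.degree v := by
    intro V _ G _ v
    rw [Set.ncard_eq_toFinset_card']
    rfl
  constructor
  · intro l hl V _ G _ hb hc hreg
    obtain ⟨n, -, hn, hiso⟩ := main_iso hb hc (fun v => by rw [hd, hreg v]; exact hl)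
    obtain ⟨v⟩ := hb.2.1.2.1.nonempty
    have h1 := hn v
    rw [hd, hreg v] at h1
    rw [h1]
    exact hiso
  · intro V _ G _ hb hc hdeg
    obtain ⟨n, -, -, hiso⟩ := main_iso hb hc (fun v => by rw [hd]; exact hdeg v)
    exact ⟨n, hiso⟩

end Pool.Agent.Results.MP_7d1d14_co.RegularBraces
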